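import Pool.Agent.P.MP_de05b4_pr.Main2

/-! Two-dimensional random walk in Dirichlet environment with nonzero mean drift: for a suitable
local accelerating function, the environment seen from the accelerated particle has a unique
invariant probability that is absolutely continuous with respect to the static law. -/

open MeasureTheory

theorem Pool.Agent.Old.MP_de05b4_pr.AccelInvariant.result (α : Fin 4 → ℝ)
    (hα : ∀ i, 0 < α i) (hd : α 0 ≠ α 2 ∨ α 1 ≠ α 3) :
    ∃ γ : DRW.Env → ℝ, DRW.LocalAcc γ ∧
      ∃! Q : Measure DRW.Env,
        IsProbabilityMeasure Q ∧ Q.AbsolutelyContinuous (DRW.law α) ∧ DRW.InvariantAcc γ Q :=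
  DRW.main_acc α hα hd
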